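import Pool.Agent.Helper65.SG.Goals
import Pool.Agent.Helper29.BL.PS

/-!
# Packet SGT-NQR (project SG, module T): the norm of `red F`
-/

set_option autoImplicit false

open MvPolynomial

namespace Pool.Agent.Helper2.SGT

open WeierstrassCurve Height
open Pool.Agent.Helper29.BL Pool.Agent.Helper92.Ru Pool.Agent.Helper42.SG
open Pool.Agent.Helper65.SG

noncomputable section

section frame

variable {K : Type} [Field K] {v : AbsoluteValue K ℝ} {A : Type} [CommRing A] [Algebra K A]
  {N : A → ℝ → Prop}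

lemma nf_one (h : NFr v N) : N 1 1 := by
  have h1 := h.const 1
  rwa [map_one, v.map_one] at h1

lemma nf_zero (h : NFr v N) : N 0 0 := by
  have h1 := h.const 0
  rwa [map_zero, v.map_zero] at h1

lemma nf_pow (h : NFr v N) {f : A} {T : ℝ} (hf : N f T) (n : ℕ) : N (f ^ n) (T ^ n) := by
  induction n with
  | zero =>
    rw [pow_zero, pow_zero]
    exact nf_one h
  | succ n ih =>
    rw [pow_succ, pow_succ]
    exact h.mul _ _ _ _ ih hf

lemma nf_prod (h : NFr v N) {ι : Type} (s : Finset ι) (f : ι → A) (T : ι → ℝ)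
    (hf : ∀ i ∈ s, N (f i) (T i)) : N (∏ i ∈ s, f i) (∏ i ∈ s, T i) := by
  classical
  induction s using Finset.induction_on with
  | empty =>
    rw [Finset.prod_empty, Finset.prod_empty]
    exact nf_one h
  | insert a s ha ih =>
    rw [Finset.prod_insert ha, Finset.prod_insert ha]
    exact h.mul _ _ _ _ (hf a (Finset.mem_insert_self a s))
      (ih fun i hi => hf i (Finset.mem_insert_of_mem hi))

lemma nf_sum (h : NFr v N) {ι : Type} (s : Finset ι) (f : ι → A) (T : ι → ℝ)
    (hf : ∀ i ∈ s, N (f i) (T i)) : N (∑ i ∈ s, f i) (∑ i ∈ s, T i) := by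
  classical
  induction s using Finset.induction_on with
  | empty =>
    rw [Finset.sum_empty, Finset.sum_empty]
    exact nf_zero h
  | insert a s ha ih =>
    rw [Finset.sum_insert ha, Finset.sum_insert ha]
    exact h.add _ _ _ _ (hf a (Finset.mem_insert_self a s))
      (ih fun i hi => hf i (Finset.mem_insert_of_mem hi))

lemma nf_sum_max (h : NFr v N) (hv : IsNonarchimedean v) {ι : Type} (s : Finset ι) (f : ι → A)
    (T : ℝ) (hT : 0 ≤ T) (hf : ∀ i ∈ s, N (f i) T) : N (∑ i ∈ s, f i) T := by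
  classical
  induction s using Finset.induction_on with
  | empty =>
    rw [Finset.sum_empty]
    exact h.mono _ _ _ (nf_zero h) hT
  | insert a s ha ih =>
    rw [Finset.sum_insert ha]
    have h1 := h.max hv _ _ _ _ (hf a (Finset.mem_insert_self a s))
      (ih fun i hi => hf i (Finset.mem_insert_of_mem hi))
    rwa [max_self] at h1

lemma v_nat (v : AbsoluteValue K ℝ) (n : ℕ) : v (n : K) ≤ n := by
  induction n with
  | zero => simp
  | succ n ih =>
    push_cast
    refine (v.add_le _ _).trans ?_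
    rw [v.map_one]
    linarith

lemma b2_le (v : AbsoluteValue K ℝ) (W : Affine K) : v W.b₂ ≤ bet W v :=
  (le_max_left _ _).trans (le_max_right _ _)

lemma b4_le (v : AbsoluteValue K ℝ) (W : Affine K) : v W.b₄ ≤ bet W v :=
  ((le_max_left _ _).trans (le_max_right _ _)).trans (le_max_right _ _)

lemma b6_le (v : AbsoluteValue K ℝ) (W : Affine K) : v W.b₆ ≤ bet W v :=
  (((le_max_left _ _).trans (le_max_right _ _)).trans (le_max_right _ _)).trans (le_max_right _ _)

lemma nf_Bf (h : NFr v N) (W : Affine K) (x : A) (hx : N x 1) :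
    N (Bf (W.map (algebraMap K A)) x) (cst v 8 * bet W v) := by
  have hβ := one_le_bet W v
  have t1 : N (algebraMap K A ((4 : ℕ) : K) * x ^ 3) (v ((4 : ℕ) : K) * 1 ^ 3) :=
    h.mul _ _ _ _ (h.const _) (nf_pow h hx 3)
  have t2 : N (algebraMap K A W.b₂ * x ^ 2) (v W.b₂ * 1 ^ 2) :=
    h.mul _ _ _ _ (h.const _) (nf_pow h hx 2)
  have t3 : N (algebraMap K A (((2 : ℕ) : K) * W.b₄) * x) (v (((2 : ℕ) : K) * W.b₄) * 1) :=
    h.mul _ _ _ _ (h.const _) hx
  have t4 : N (algebraMap K A W.b₆) (v W.b₆) := h.const _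
  have e1 : Bf (W.map (algebraMap K A)) x = (algebraMap K A ((4 : ℕ) : K) * x ^ 3
      + algebraMap K A W.b₂ * x ^ 2) + (algebraMap K A (((2 : ℕ) : K) * W.b₄) * x
      + algebraMap K A W.b₆) := by
    unfold Bf
    rw [WeierstrassCurve.map_b₂, WeierstrassCurve.map_b₄, WeierstrassCurve.map_b₆, map_mul,
      map_natCast, map_natCast]
    push_cast
    ring
  rw [e1]
  rw [v.map_mul] at t3
  have h2 := b2_le v W
  have h4 := b4_le v W
  have h6 := b6_le v W
  have h4' := v.nonneg W.b₄
  by_cases hv : IsNonarchimedean v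
  · rw [cst_of_nonarch hv, one_mul]
    have hn : ∀ m : ℕ, v ((m : ℕ) : K) ≤ 1 := fun m => hv.apply_natCast_le_one
    have u1 := h.mono _ _ (bet W v) t1 (by
      have := hn 4
      linarith)
    have u2 := h.mono _ _ (bet W v) t2 (by linarith)
    have u3 := h.mono _ _ (bet W v) t3 (by
      have h5 := mul_le_mul_of_nonneg_right (hn 2) h4'
      linarith)
    have u4 := h.mono _ _ (bet W v) t4 h6
    have w := h.max hv _ _ _ _ (h.max hv _ _ _ _ u1 u2) (h.max hv _ _ _ _ u3 u4)
    simpa using w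
  · rw [cst_of_not_nonarch hv]
    refine h.mono _ _ _ (h.add _ _ _ _ (h.add _ _ _ _ t1 t2) (h.add _ _ _ _ t3 t4)) ?_
    have h5 := v_nat v 4
    have h7 := mul_le_mul_of_nonneg_right (v_nat v 2) h4'
    push_cast at h5 h7 ⊢
    linarith

end frame

lemma rpw_one {σ : Type} (α : σ →₀ ℕ) : rpw (fun _ => (1 : ℝ)) α = 1 := by
  unfold rpw
  simp [Finsupp.prod]

theorem t_NQR (hF : FRPO) : NQR := by
  intro K _ _ W n
  refine ⟨fun v => (cst v 8 * bet (W 0) v * bet (W 1) v) ^ (2 * n + 2), ⟨?_, ?_⟩, ?_⟩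
  · intro v
    exact one_le_pow₀ (one_le_mul_of_one_le_of_one_le
      (one_le_mul_of_one_le_of_one_le (one_le_cst v (by norm_num)) (one_le_bet _ v))
      (one_le_bet _ v))
  · refine ((((FS_log_cst (K := K) 8).add (FS_log_bet (W 0))).add (FS_log_bet (W 1))).const_mul
      ((2 * n + 2 : ℕ) : ℝ)).mono fun v _ hv => ?_
    rw [Real.log_pow, Real.log_mul (mul_pos (cst_pos v (by norm_num)) (bet_pos _ v)).ne'
      (bet_pos _ v).ne', Real.log_mul (cst_pos v (by norm_num)).ne' (bet_pos _ v).ne']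
    exact hv
  · intro F v T k hFT hm
    obtain ⟨hN, hX, -⟩ := hF K v (Fin (2 * n + 2))
    have hco : ∀ m, v (coeff m F) ≤ T := fun m =>
      (hF K v (Fin (2 * n + 2) ⊕ Fin (2 * n + 2))).2.2 F T m hFT
    have hT : 0 ≤ T := hFT.1
    set γ : ℝ := cst v 8 * bet (W 0) v * bet (W 1) v with hγ
    have h8 : 1 ≤ cst v 8 := one_le_cst v (by norm_num)
    have hb0 := one_le_bet (W 0) v
    have hb1 := one_le_bet (W 1) v
    have h80 : 1 ≤ cst v 8 * bet (W 0) v := one_le_mul_of_one_le_of_one_le h8 hb0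
    have hγ1 : 1 ≤ γ := one_le_mul_of_one_le_of_one_le h80 hb1
    have hγle : ∀ h : ℕ, cst v 8 * bet (W (h % 2)) v ≤ γ := by
      intro h
      rcases Nat.mod_two_eq_zero_or_one h with h0 | h0
      · rw [h0, hγ]
        exact le_mul_of_one_le_right (by linarith) hb1
      · rw [h0, hγ, mul_right_comm]
        exact le_mul_of_one_le_right
          (by linarith [one_le_mul_of_one_le_of_one_le h8 hb1]) hb0
    have hB1 : (0 : ℝ) ≤ (γ ^ (2 * n + 2)) ^ k := by positivity
    -- the terms
    have hterm : ∀ m ∈ F.support, NPol v (C (coeff m F) * ∏ h : Fin (2 * n + 2),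
        (X h ^ m (Sum.inl h) *
          Bf (mapW (MvPolynomial (Fin (2 * n + 2)) K) W (h.val % 2)) (X h) ^ (m (Sum.inr h) / 2)))
        (v (coeff m F) * (γ ^ (2 * n + 2)) ^ k) := by
      intro m hms
      have h1 : ∀ h ∈ (Finset.univ : Finset (Fin (2 * n + 2))), NPol v (X h ^ m (Sum.inl h) *
          Bf (mapW (MvPolynomial (Fin (2 * n + 2)) K) W (h.val % 2)) (X h) ^ (m (Sum.inr h) / 2))
          (γ ^ k) := by
        intro h _
        have h2 := hN.mul _ _ _ _ (nf_pow hN (hX h) (m (Sum.inl h)))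
          (nf_pow hN (nf_Bf hN (W (h.val % 2)) (X h) (hX h)) (m (Sum.inr h) / 2))
        refine hN.mono _ _ _ h2 ?_
        rw [one_pow, one_mul]
        have h3 : m (Sum.inr h) / 2 ≤ k := by
          have := hm m hms h
          omega
        have h4 : (0 : ℝ) ≤ cst v 8 * bet (W (h.val % 2)) v :=
          mul_nonneg (by linarith) (by linarith [one_le_bet (W (h.val % 2)) v])
        calc (cst v 8 * bet (W (h.val % 2)) v) ^ (m (Sum.inr h) / 2)
            ≤ γ ^ (m (Sum.inr h) / 2) := pow_le_pow_left₀ h4 (hγle _) _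
          _ ≤ γ ^ k := pow_le_pow_right₀ hγ1 h3
      have h5 := nf_prod hN Finset.univ _ (fun _ => γ ^ k) h1
      rw [Finset.prod_const, Finset.card_univ, Fintype.card_fin, ← pow_mul, mul_comm k, pow_mul]
        at h5
      have h6 := hN.const (coeff m F)
      rw [MvPolynomial.algebraMap_eq] at h6
      exact hN.mul _ _ _ _ h6 h5
    unfold red
    by_cases hv : IsNonarchimedean v
    · refine nf_sum_max hN hv F.support _ _ (mul_nonneg hT hB1) fun m hms => ?_
      exact hN.mono _ _ _ (hterm m hms) (mul_le_mul_of_nonneg_right (hco m) hB1)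
    · refine hN.mono _ _ _ (nf_sum hN F.support _ _ hterm) ?_
      rw [← Finset.sum_mul]
      refine mul_le_mul_of_nonneg_right ?_ hB1
      have h1 := hFT.2.2 hv F.support
      refine le_trans (le_of_eq (Finset.sum_congr rfl fun m _ => ?_)) h1
      rw [rpw_one, mul_one, MvPolynomial.coeff_coe]

end

end Pool.Agent.Helper2.SGT
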